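import Pool.Agent.Y246.LG.Stm

/-!
# Project LG: the discretisation limit (S_DISC)
-/

set_option autoImplicit false

namespace Pool.Agent.Y689.LG

open Polynomial Filter Topology
open Pool.Agent.Y246.LG

/-- Taylor expansion of order three. -/
theorem taylor3 (y P : ℝ[X][X]) : ∃ R : ℝ[X][X],
    P.comp (X + y) = P + y * derivative P +
      y ^ 2 * (C (C (1 / 2 : ℝ)) * derivative (derivative P)) + y ^ 3 * R := by
  have hhalf : (C (C (1 / 2 : ℝ)) : ℝ[X][X]) * 2 = 1 := by
    rw [← C_ofNat, ← C_ofNat (R := ℝ), ← C_mul, ← C_mul]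
    norm_num
  induction P using Polynomial.induction_on with
  | C a => exact ⟨0, by simp⟩
  | add p q hp hq =>
    obtain ⟨R1, h1⟩ := hp
    obtain ⟨R2, h2⟩ := hq
    refine ⟨R1 + R2, ?_⟩
    rw [add_comp, h1, h2]
    simp only [derivative_add]
    ring
  | monomial n a hn =>
    have e : (C a * X ^ (n + 1) : ℝ[X][X]) = C a * X ^ n * X := by ring
    rw [e]
    obtain ⟨p, hp⟩ : ∃ p : ℝ[X][X], p = C a * X ^ n := ⟨_, rfl⟩
    rw [← hp] at hn ⊢
    obtain ⟨R, h⟩ := hn
    refine ⟨C (C (1 / 2 : ℝ)) * derivative (derivative p) + X * R + y * R, ?_⟩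
    rw [mul_comp, h]
    simp only [derivative_mul, derivative_add, derivative_X, X_comp, mul_one]
    linear_combination (-(y ^ 2 * derivative p)) * hhalf

/-- The key identity. -/
theorem keyQ (P : ℝ[X][X]) : ∃ Q : ℝ[X][X],
    P ^ 2 - P.comp (X - C X) * P.comp (X + C X) = (C X) ^ 2 * Q ∧
    Q.map (evalRingHom 0) = Lg (P.map (evalRingHom 0)) := by
  obtain ⟨R1, h1⟩ := taylor3 (C X : ℝ[X][X]) P
  obtain ⟨R2, h2⟩ := taylor3 (-(C X : ℝ[X][X])) P
  have hhalf : (C (C (1 / 2 : ℝ)) : ℝ[X][X]) * 2 = 1 := by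
    rw [← C_ofNat, ← C_ofNat (R := ℝ), ← C_mul, ← C_mul]
    norm_num
  rw [← sub_eq_add_neg] at h2
  set p' := derivative P with hp'
  set p'' := derivative p' with hp''
  set c : ℝ[X][X] := C (C (1 / 2 : ℝ)) with hc
  set y : ℝ[X][X] := C X with hy
  refine ⟨p' ^ 2 - P * p'' + y * (P * R2 - P * R1 - y * c ^ 2 * p'' ^ 2 + y * p' * R1
    + y * p' * R2 - y ^ 2 * c * p'' * R1 + y ^ 2 * c * p'' * R2 + y ^ 3 * R1 * R2), ?_, ?_⟩
  · rw [h1, h2]
    linear_combination (-(y ^ 2 * P * p'')) * hhalf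
  · have hy0 : y.map (evalRingHom 0) = 0 := by
      rw [hy, map_C, coe_evalRingHom, eval_X, C_0]
    unfold Lg
    simp only [Polynomial.map_add, Polynomial.map_sub, Polynomial.map_mul, Polynomial.map_pow, hy0,
      zero_mul, add_zero, hp', hp'', derivative_map]
    ring

/-- Evaluation at `(t, h)`. -/
noncomputable def ev (t h : ℝ) : ℝ[X][X] →+* ℝ := (evalRingHom h).comp (evalRingHom (C t))

theorem ev_C (t h : ℝ) (a : ℝ[X]) : ev t h (C a) = a.eval h := by
  simp [ev]

theorem ev_X (t h : ℝ) : ev t h X = t := by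
  simp [ev]

theorem ev_comp (t h : ℝ) (P q : ℝ[X][X]) : ev t h (P.comp q) = ev (ev t h q) h P := by
  induction P using Polynomial.induction_on with
  | C a => simp [ev_C]
  | add p q hp hq => rw [add_comp, map_add, map_add, hp, hq]
  | monomial n a hn =>
    rw [mul_comp, C_comp, map_mul, map_mul, pow_comp, X_comp, map_pow, map_pow, ev_C, ev_C, ev_X]

theorem ev_zero (t : ℝ) (P : ℝ[X][X]) : ev t 0 P = (P.map (evalRingHom 0)).eval t := by
  induction P using Polynomial.induction_on with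
  | C a => simp [ev_C]
  | add p q hp hq => rw [map_add, Polynomial.map_add, eval_add, hp, hq]
  | monomial n a hn =>
    rw [map_mul, map_pow, ev_C, ev_X]
    simp

theorem continuous_ev (t : ℝ) (P : ℝ[X][X]) : Continuous fun h => ev t h P := by
  change Continuous fun h => (P.eval (C t)).eval h
  exact Polynomial.continuous _

theorem step (P Q : ℝ[X][X]) (h1 : P ^ 2 - P.comp (X - C X) * P.comp (X + C X) = (C X) ^ 2 * Q)
    (t h : ℝ) : ev t h P ^ 2 - ev (t - h) h P * ev (t + h) h P = h ^ 2 * ev t h Q := by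
  have := congrArg (ev t h) h1
  rw [map_sub, map_mul, map_mul, map_pow, map_pow, ev_comp, ev_comp, map_sub, map_add, ev_X, ev_C,
    eval_X] at this
  exact this

/-- The two variable polynomial of the sequence. -/
noncomputable def GG (g : ℝ[X]) : ℝ[X][X] :=
  ∑ l ∈ Finset.range (g.natDegree + 1), C (C (g.coeff l)) *
    ∏ i ∈ Finset.range l, (X - C ((i : ℝ[X]) * X))

theorem ev_GG (g : ℝ[X]) (j : ℕ) (h : ℝ) : ev (j * h) h (GG g) =
    ∑ l ∈ Finset.range (g.natDegree + 1), (j.descFactorial l : ℝ) * h ^ l * g.coeff l := by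
  unfold GG
  rw [map_sum]
  refine Finset.sum_congr rfl fun l _ => ?_
  rw [map_mul, ev_C, eval_C, map_prod]
  have h1 : ∀ l : ℕ, ∏ i ∈ Finset.range l, ev (j * h) h (X - C ((i : ℝ[X]) * X)) =
      (j.descFactorial l : ℝ) * h ^ l := by
    intro l
    induction l with
    | zero => simp
    | succ l ih =>
      rw [Finset.prod_range_succ, ih, map_sub, ev_X, ev_C, eval_mul, eval_natCast, eval_X,
        Nat.descFactorial_succ, pow_succ]
      by_cases hl : l ≤ j
      · push_cast [Nat.cast_sub hl]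
        ring
      · rw [not_le] at hl
        rw [Nat.descFactorial_eq_zero_iff_lt.2 hl]
        simp
  rw [h1 l]
  ring

theorem map_GG (g : ℝ[X]) : (GG g).map (evalRingHom 0) = g := by
  conv_rhs => rw [g.as_sum_range_C_mul_X_pow]
  unfold GG
  rw [Polynomial.map_sum]
  refine Finset.sum_congr rfl fun l _ => ?_
  rw [Polynomial.map_mul, map_C, coe_evalRingHom, eval_C, Polynomial.map_prod]
  congr 1
  rw [Finset.prod_congr rfl (g := fun _ => X), Finset.prod_const, Finset.card_range]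
  intro i _
  simp

/-- The iterated discretisation. -/
theorem iter (g : ℝ[X]) (n : ℕ) : ∃ (e : ℕ) (Q : ℝ[X][X]),
    Q.map (evalRingHom 0) = Lg^[n + 1] g ∧ ∀ (h : ℝ) (k : ℕ), n + 1 ≤ k →
      LT n (fun j => ∑ l ∈ Finset.range (g.natDegree + 1),
        (j.descFactorial l : ℝ) * h ^ l * g.coeff l) k = h ^ e * ev (k * h) h Q := by
  induction n with
  | zero =>
    obtain ⟨Q, h1, h2⟩ := keyQ (GG g)
    refine ⟨2, Q, ?_, fun h k hk => ?_⟩
    · rw [h2, map_GG]
      rfl
    · have := step _ _ h1 (k * h) h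
      have e1 : (k : ℝ) * h - h = ((k - 1 : ℕ) : ℝ) * h := by
        rw [Nat.cast_sub (by omega : 1 ≤ k)]
        push_cast
        ring
      have e2 : (k : ℝ) * h + h = ((k + 1 : ℕ) : ℝ) * h := by
        push_cast
        ring
      rw [e1, e2, ev_GG, ev_GG, ev_GG] at this
      exact this
  | succ n ih =>
    obtain ⟨e, Q, hQ, hL⟩ := ih
    obtain ⟨Q', h1, h2⟩ := keyQ Q
    refine ⟨2 * e + 2, Q', ?_, fun h k hk => ?_⟩
    · rw [h2, hQ, ← Function.iterate_succ_apply' Lg]
    · have := step _ _ h1 (k * h) h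
      have e1 : (k : ℝ) * h - h = ((k - 1 : ℕ) : ℝ) * h := by
        rw [Nat.cast_sub (by omega : 1 ≤ k)]
        push_cast
        ring
      have e2 : (k : ℝ) * h + h = ((k + 1 : ℕ) : ℝ) * h := by
        push_cast
        ring
      rw [e1, e2] at this
      change LT n _ k ^ 2 - LT n _ (k - 1) * LT n _ (k + 1) = _
      rw [hL h k (by omega), hL h (k - 1) (by omega), hL h (k + 1) (by omega)]
      linear_combination h ^ (2 * e) * this

theorem t : S_DISC := by
  intro n g t ht hneg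
  obtain ⟨e, Q, hQ, hL⟩ := iter g n
  rw [← hQ, ← ev_zero] at hneg
  have h1 : Tendsto (fun k : ℕ => t / (k : ℝ)) atTop (𝓝 0) :=
    tendsto_const_div_atTop_nhds_zero_nat t
  have h2 : Tendsto (fun k : ℕ => ev t (t / (k : ℝ)) Q) atTop (𝓝 (ev t 0 Q)) :=
    ((continuous_ev t Q).tendsto 0).comp h1
  obtain ⟨k0, hk0⟩ := eventually_atTop.1 (h2.eventually (gt_mem_nhds hneg))
  refine ⟨max k0 (n + 1), fun k hk => ⟨t / k, ?_, ?_⟩⟩
  · have : 0 < k := by have := le_of_max_le_right hk; omega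
    positivity
  · have hk1 : n + 1 ≤ k := le_of_max_le_right hk
    have hkpos : (0 : ℝ) < k := by
      have : 0 < k := by omega
      exact_mod_cast this
    rw [hL _ k hk1]
    have e1 : (k : ℝ) * (t / k) = t := by field_simp
    rw [e1]
    exact mul_neg_of_pos_of_neg (by positivity) (hk0 k (le_of_max_le_left hk))

end Pool.Agent.Y689.LG
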